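import Mathlib
import Pool.Agent.Lib_helper28.CMPP.Main

/-!
The conjecture of Capparelli, Meurman, Primc and Primc (Q1 of MP_9edfd9_co) is true: the generating
function of the admissible coloured partitions is the infinite product.  The proof is in
`Pool/Agent/Lib_helper28/CMPP/` and `Pool/Agent/Lib_helper89/`.
-/

set_option autoImplicit false

namespace Pool.Agent.Results.MP_9edfd9_co.ProductFormula

/-- a coloured partition with the colours `1, ..., 2 n + 1` (a finite multiset of pairs (part,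
colour), the parts are positive) in which odd colours carry odd parts and even colours carry even
parts -/
def IsColouredPartition (n : ℕ) (l : Multiset (ℕ × ℕ)) : Prop :=
  ∀ p ∈ l, 1 ≤ p.1 ∧ 1 ≤ p.2 ∧ p.2 ≤ 2 * n + 1 ∧ Even (p.2 + p.1)

/-- the sum of the parts -/
def size (l : Multiset (ℕ × ℕ)) : ℕ := (l.map Prod.fst).sum

/-- the number `f_i^(c)` of the parts of size `i` and colour `c`, with the boundary values
`f_(-1)^(2 c + 1) = k c` and `f_0^(2 c) = 0` -/
def freq (k : ℕ → ℕ) (l : Multiset (ℕ × ℕ)) (i : ℤ) (c : ℕ) : ℕ :=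
  if i = -1 then k ((c - 1) / 2) else if i = 0 then 0 else l.count (i.toNat, c)

/-- the sequences `i_1, ..., i_(2 n + 1)` of indices of the paths -/
def IsPath (n : ℕ) (i : ℕ → ℤ) : Prop :=
  (∀ c : ℕ, 1 ≤ c → c ≤ 2 * n + 1 → -1 ≤ i c ∧ Even (i c + c)) ∧
    ∀ c : ℕ, 1 ≤ c → c < 2 * n + 1 → |i c - i (c + 1)| = 1

/-- the coloured partition `l` is admissible: the sum of the frequencies along each path is at most
`k 0 + ... + k n` -/
def Admissible (n : ℕ) (k : ℕ → ℕ) (l : Multiset (ℕ × ℕ)) : Prop :=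
  IsColouredPartition n l ∧ ∀ i : ℕ → ℤ, IsPath n i →
    ∑ c ∈ Finset.Icc 1 (2 * n + 1), freq k l (i c) c ≤ ∑ j ∈ Finset.range (n + 1), k j

/-- `(a; q)_∞` -/
noncomputable def poch (a q : ℝ) : ℝ := ∏' j : ℕ, (1 - a * q ^ j)

/-- `θ(a; q) = (a; q)_∞ (q / a; q)_∞` -/
noncomputable def theta (a q : ℝ) : ℝ := poch a q * poch (q / a) q

/-- `λ_i = k_i + ... + k_n` -/
def lam (n : ℕ) (k : ℕ → ℕ) (i : ℕ) : ℤ := ∑ j ∈ Finset.Icc i n, (k j : ℤ)

/-- `M = k_0 + ... + k_n + n + 1` -/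
def bigM (n : ℕ) (k : ℕ → ℕ) : ℕ := (∑ j ∈ Finset.range (n + 1), k j) + n + 1

/-- the infinite product -/
noncomputable def product (n : ℕ) (k : ℕ → ℕ) (q : ℝ) : ℝ :=
  poch (q ^ bigM n k) (q ^ (2 * bigM n k)) * poch (q ^ (2 * bigM n k)) (q ^ (2 * bigM n k)) ^ n /
      (poch q (q ^ 2) * poch q q ^ n) *
    (∏ i ∈ Finset.Icc 1 n, theta (q ^ (lam n k i + n + 1 - i)) (q ^ bigM n k)) *
    ∏ i ∈ Finset.Icc 1 n, ∏ j ∈ Finset.Icc (i + 1) n,
      (theta (q ^ ((j : ℤ) - i + lam n k i - lam n k j)) (q ^ (2 * bigM n k)) *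
        theta (q ^ (lam n k i + lam n k j + 2 * n + 2 - i - j)) (q ^ (2 * bigM n k)))

/-! ### the product -/

theorem poch_pow (q : ℝ) (a b : ℕ) : poch (q ^ a) (q ^ b) = ∏' j : ℕ, (1 - q ^ (a + b * j)) := by
  unfold poch
  congr 1
  funext j
  rw [pow_add, pow_mul]

theorem theta_pow {q : ℝ} (hq : 0 < q) {a b : ℕ} (h : a ≤ b) : theta (q ^ a) (q ^ b) =
    (∏' j : ℕ, (1 - q ^ (a + b * j))) * ∏' j : ℕ, (1 - q ^ ((b - a) + b * j)) := by
  unfold theta
  have h1 : q ^ b / q ^ a = q ^ (b - a) := by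
    rw [div_eq_iff (pow_pos hq a).ne', ← pow_add, Nat.sub_add_cancel h]
  rw [h1, poch_pow, poch_pow]

theorem lam_eq (n : ℕ) (k : ℕ → ℕ) (i : ℕ) :
    lam n k i = ((∑ j ∈ Finset.Icc i n, k j : ℕ) : ℤ) := by
  unfold lam
  push_cast
  rfl

theorem lam_le (n : ℕ) (k : ℕ → ℕ) (i : ℕ) :
    ∑ j ∈ Finset.Icc i n, k j ≤ ∑ j ∈ Finset.range (n + 1), k j := by
  apply Finset.sum_le_sum_of_subset
  intro j hj
  rw [Finset.mem_Icc] at hj
  rw [Finset.mem_range]
  omega

theorem lam_anti (n : ℕ) (k : ℕ → ℕ) {i j : ℕ} (h : i ≤ j) :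
    ∑ t ∈ Finset.Icc j n, k t ≤ ∑ t ∈ Finset.Icc i n, k t := by
  apply Finset.sum_le_sum_of_subset
  intro t ht
  rw [Finset.mem_Icc] at ht ⊢
  omega

theorem product_eq (n : ℕ) (k : ℕ → ℕ) {q : ℝ} (hq : 0 < q) :
    product n k q = Pool.Agent.CMPP.RHS n k q := by
  unfold product Pool.Agent.CMPP.RHS
  have hM : bigM n k = (∑ t ∈ Finset.range (n + 1), k t) + n + 1 := rfl
  rw [hM]
  set K := ∑ t ∈ Finset.range (n + 1), k t with hK
  have e1 : poch q (q ^ 2) = ∏' j : ℕ, (1 - q ^ (1 + 2 * j)) := by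
    have := poch_pow q 1 2
    rwa [pow_one] at this
  have e2 : poch q q = ∏' j : ℕ, (1 - q ^ (1 + j)) := by
    have := poch_pow q 1 1
    rw [pow_one] at this
    rw [this]
    congr 1
    funext j
    rw [one_mul]
  have e3 : ∀ i ∈ Finset.Icc 1 n, theta (q ^ (lam n k i + n + 1 - i)) (q ^ (K + n + 1)) =
      (∏' j : ℕ, (1 - q ^ (((∑ t ∈ Finset.Icc i n, k t) + (n - i) + 1) + (K + n + 1) * j))) *
        ∏' j : ℕ, (1 - q ^ (((K + n + 1) - ((∑ t ∈ Finset.Icc i n, k t) + (n - i) + 1)) +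
          (K + n + 1) * j)) := by
    intro i hi
    rw [Finset.mem_Icc] at hi
    have h1 : lam n k i + n + 1 - i =
        (((∑ t ∈ Finset.Icc i n, k t) + (n - i) + 1 : ℕ) : ℤ) := by
      rw [lam_eq]
      push_cast [Nat.cast_sub hi.2]
      ring
    rw [h1, zpow_natCast]
    apply theta_pow hq
    have := lam_le n k i
    omega
  have e4 : ∀ i ∈ Finset.Icc 1 n, ∀ j ∈ Finset.Icc (i + 1) n,
      theta (q ^ ((j : ℤ) - i + lam n k i - lam n k j)) (q ^ (2 * (K + n + 1))) *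
        theta (q ^ (lam n k i + lam n k j + 2 * n + 2 - i - j)) (q ^ (2 * (K + n + 1))) =
      (∏' l : ℕ, (1 - q ^ ((((∑ t ∈ Finset.Icc i n, k t) - (∑ t ∈ Finset.Icc j n, k t)) + (j - i))
          + (2 * (K + n + 1)) * l)))
        * (∏' l : ℕ, (1 - q ^ (((2 * (K + n + 1))
          - (((∑ t ∈ Finset.Icc i n, k t) - (∑ t ∈ Finset.Icc j n, k t)) + (j - i)))
          + (2 * (K + n + 1)) * l)))
        * (∏' l : ℕ, (1 - q ^ (((∑ t ∈ Finset.Icc i n, k t) + (∑ t ∈ Finset.Icc j n, k t) +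
            (n - i) + (n - j) + 2) + (2 * (K + n + 1)) * l)))
        * (∏' l : ℕ, (1 - q ^ (((2 * (K + n + 1))
          - ((∑ t ∈ Finset.Icc i n, k t) + (∑ t ∈ Finset.Icc j n, k t) + (n - i) + (n - j) + 2))
          + (2 * (K + n + 1)) * l))) := by
    intro i hi j hj
    rw [Finset.mem_Icc] at hi hj
    have h2 := lam_anti n k (show i ≤ j by omega)
    have h3 := lam_le n k i
    have h4 := lam_le n k j
    have h1 : (j : ℤ) - i + lam n k i - lam n k j =
        ((((∑ t ∈ Finset.Icc i n, k t) - (∑ t ∈ Finset.Icc j n, k t)) + (j - i) : ℕ) : ℤ) := by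
      rw [lam_eq, lam_eq]
      push_cast [Nat.cast_sub h2, Nat.cast_sub (show i ≤ j by omega)]
      ring
    have h5 : lam n k i + lam n k j + 2 * n + 2 - i - j =
        (((∑ t ∈ Finset.Icc i n, k t) + (∑ t ∈ Finset.Icc j n, k t) +
            (n - i) + (n - j) + 2 : ℕ) : ℤ) := by
      rw [lam_eq, lam_eq]
      push_cast [Nat.cast_sub hi.2, Nat.cast_sub hj.2]
      ring
    rw [h1, h5, zpow_natCast, zpow_natCast, theta_pow hq (by omega), theta_pow hq (by omega)]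
    ring
  rw [e1, e2, poch_pow, poch_pow, Finset.prod_congr rfl e3,
    Finset.prod_congr rfl (fun i hi => Finset.prod_congr rfl (e4 i hi))]

/-! ### the sum -/

/-- the box of the possible pairs (part, colour) -/
def box (n N : ℕ) : Finset (ℕ × ℕ) := Finset.Icc 1 N ×ˢ Finset.Icc 1 (2 * n + 1)

theorem size_eq {n N : ℕ} {l : Multiset (ℕ × ℕ)} (h : ∀ p ∈ l, p ∈ box n N) :
    size l = ∑ c ∈ Finset.Icc 1 (2 * n + 1), ∑ i ∈ Finset.Icc 1 N, i * l.count (i, c) := by
  classical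
  unfold size
  rw [Finset.sum_multiset_map_count, Finset.sum_comm, ← Finset.sum_product']
  apply Finset.sum_subset_zero_on_sdiff
  · intro p hp
    rw [Multiset.mem_toFinset] at hp
    exact h p hp
  · intro p hp
    rw [Finset.mem_sdiff, Multiset.mem_toFinset] at hp
    have : l.count (p.1, p.2) = 0 := Multiset.count_eq_zero.2 hp.2
    rw [this, mul_zero]
  · intro p _
    rw [smul_eq_mul, mul_comm]

theorem part_le {l : Multiset (ℕ × ℕ)} {p : ℕ × ℕ} (h : p ∈ l) : p.1 ≤ size l :=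
  Multiset.single_le_sum (fun _ _ => Nat.zero_le _) _ (Multiset.mem_map_of_mem _ h)

theorem mem_box {n : ℕ} {l : Multiset (ℕ × ℕ)} (h : IsColouredPartition n l) {p : ℕ × ℕ}
    (hp : p ∈ l) : p ∈ box n (size l) := by
  obtain ⟨h1, h2, h3, -⟩ := h p hp
  rw [box, Finset.mem_product, Finset.mem_Icc, Finset.mem_Icc]
  exact ⟨⟨h1, part_le hp⟩, h2, h3⟩

/-- the set of frequency functions which is counted in the library -/
def SN (n : ℕ) (k : ℕ → ℕ) (N : ℕ) : Set (ℕ → ℕ → ℕ) := {f : ℕ → ℕ → ℕ |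
            (∀ c i, f c i ≠ 0 → 1 ≤ c ∧ c ≤ 2 * n + 1 ∧ 1 ≤ i ∧ i ≤ N ∧ Even (c + i)) ∧
            (∑ c ∈ Finset.Icc 1 (2 * n + 1), ∑ i ∈ Finset.Icc 1 N, i * f c i) = N ∧
            ∀ p : ℕ → ℤ,
              (∀ c ∈ Finset.Icc 1 (2 * n + 1), -1 ≤ p c ∧ Even (p c + (c : ℤ))) →
              (∀ c ∈ Finset.Icc 1 (2 * n), |p c - p (c + 1)| = 1) →
              (∑ c ∈ Finset.Icc 1 (2 * n + 1),
                  (if p c = -1 then (if Odd c then k ((c - 1) / 2) else 0)
                   else f c (p c).toNat))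
                ≤ ∑ t ∈ Finset.range (n + 1), k t}

theorem freq_eq {n : ℕ} {k : ℕ → ℕ} {l : Multiset (ℕ × ℕ)} (h : IsColouredPartition n l)
    {i : ℤ} {c : ℕ} (hc : Even (i + c)) : freq k l i c =
      if i = -1 then (if Odd c then k ((c - 1) / 2) else 0) else l.count (i.toNat, c) := by
  unfold freq
  by_cases h1 : i = -1
  · rw [if_pos h1, if_pos h1, if_pos]
    rw [h1] at hc
    obtain ⟨r, hr⟩ := hc
    refine ⟨r.toNat, ?_⟩
    omega
  · rw [if_neg h1, if_neg h1]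
    by_cases h2 : i = 0
    · rw [if_pos h2, h2]
      symm
      rw [Multiset.count_eq_zero]
      intro h3
      have := (h _ h3).1
      simp at this
    · rw [if_neg h2]

theorem adm_iff {n : ℕ} {k : ℕ → ℕ} {l : Multiset (ℕ × ℕ)} (h : IsColouredPartition n l) :
    Admissible n k l ↔ ∀ p : ℕ → ℤ,
              (∀ c ∈ Finset.Icc 1 (2 * n + 1), -1 ≤ p c ∧ Even (p c + (c : ℤ))) →
              (∀ c ∈ Finset.Icc 1 (2 * n), |p c - p (c + 1)| = 1) →
              (∑ c ∈ Finset.Icc 1 (2 * n + 1),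
                  (if p c = -1 then (if Odd c then k ((c - 1) / 2) else 0)
                   else l.count ((p c).toNat, c)))
                ≤ ∑ t ∈ Finset.range (n + 1), k t := by
  constructor
  · rintro ⟨-, h2⟩ p hp1 hp2
    have h3 := h2 p ⟨fun c hc1 hc2 => hp1 c (Finset.mem_Icc.2 ⟨hc1, hc2⟩), fun c hc1 hc2 =>
      hp2 c (Finset.mem_Icc.2 ⟨hc1, by omega⟩)⟩
    rwa [Finset.sum_congr rfl (fun c hc => freq_eq h (hp1 c hc).2)] at h3
  · intro h2
    refine ⟨h, fun p hp => ?_⟩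
    have h3 := h2 p (fun c hc => hp.1 c (Finset.mem_Icc.1 hc).1 (Finset.mem_Icc.1 hc).2)
      (fun c hc => hp.2 c (Finset.mem_Icc.1 hc).1 (by have := (Finset.mem_Icc.1 hc).2; omega))
    rwa [Finset.sum_congr rfl (fun c hc => freq_eq h
      (hp.1 c (Finset.mem_Icc.1 hc).1 (Finset.mem_Icc.1 hc).2).2)]

/-- the frequency function -/
def fr (l : Multiset (ℕ × ℕ)) : ℕ → ℕ → ℕ := fun c i => l.count (i, c)

theorem fr_inj : Function.Injective fr := by
  intro l l' h
  ext ⟨i, c⟩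
  exact congrFun (congrFun h c) i

theorem fr_mem {n : ℕ} {k : ℕ → ℕ} {l : Multiset (ℕ × ℕ)} (h : Admissible n k l) :
    fr l ∈ SN n k (size l) := by
  refine ⟨?_, ?_, ?_⟩
  · intro c i hci
    have h1 : (i, c) ∈ l := by
      by_contra hcon
      exact hci (Multiset.count_eq_zero.2 hcon)
    obtain ⟨g1, g2, g3, g4⟩ := h.1 _ h1
    exact ⟨g2, g3, g1, part_le h1, g4⟩
  · exact (size_eq (fun p hp => mem_box h.1 hp)).symm
  · exact (adm_iff h.1).1 h

/-- the multiset with given frequencies -/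
def mk (n N : ℕ) (f : ℕ → ℕ → ℕ) : Multiset (ℕ × ℕ) :=
  ∑ p ∈ box n N, Multiset.replicate (f p.2 p.1) p

theorem fr_mk {n N : ℕ} {f : ℕ → ℕ → ℕ}
    (hf : ∀ c i, f c i ≠ 0 → 1 ≤ c ∧ c ≤ 2 * n + 1 ∧ 1 ≤ i ∧ i ≤ N ∧ Even (c + i)) :
    fr (mk n N f) = f := by
  funext c i
  unfold fr mk
  rw [Multiset.count_sum']
  simp only [Multiset.count_replicate]
  rw [Finset.sum_ite_eq' (box n N) ((i, c) : ℕ × ℕ) (fun p => f p.2 p.1)]
  split_ifs with h
  · rfl
  · by_contra hcon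
    apply h
    obtain ⟨h1, h2, h3, h4, -⟩ := hf c i (fun h0 => hcon h0.symm)
    rw [box, Finset.mem_product, Finset.mem_Icc, Finset.mem_Icc]
    exact ⟨⟨h3, h4⟩, h1, h2⟩

theorem fr_surj {n : ℕ} {k : ℕ → ℕ} {N : ℕ} {f : ℕ → ℕ → ℕ} (hf : f ∈ SN n k N) :
    ∃ l, Admissible n k l ∧ size l = N ∧ fr l = f := by
  obtain ⟨h1, h2, h3⟩ := hf
  have e := fr_mk h1
  have hcount : ∀ c i, (mk n N f).count (i, c) = f c i := fun c i => congrFun (congrFun e c) i
  have hmem : ∀ p ∈ mk n N f, f p.2 p.1 ≠ 0 := by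
    intro p hp h0
    rw [← hcount p.2 p.1] at h0
    exact (Multiset.count_eq_zero.1 h0) hp
  have hcol : IsColouredPartition n (mk n N f) := by
    intro p hp
    obtain ⟨g1, g2, g3, -, g5⟩ := h1 _ _ (hmem p hp)
    exact ⟨g3, g1, g2, g5⟩
  refine ⟨mk n N f, ?_, ?_, e⟩
  · rw [adm_iff hcol]
    intro p hp1 hp2
    simp only [hcount]
    exact h3 p hp1 hp2
  · rw [size_eq (n := n) (N := N)]
    · simp only [hcount]
      exact h2
    · intro p hp
      obtain ⟨g1, g2, g3, g4, -⟩ := h1 _ _ (hmem p hp)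
      rw [box, Finset.mem_product, Finset.mem_Icc, Finset.mem_Icc]
      exact ⟨⟨g3, g4⟩, g1, g2⟩

/-- the partitions of `N` and the frequency functions -/
noncomputable def eqv (n : ℕ) (k : ℕ → ℕ) (N : ℕ) :
    {x : {l : Multiset (ℕ × ℕ) // Admissible n k l} // size x.1 = N} ≃ SN n k N :=
  Equiv.ofBijective (fun x => ⟨fr x.1.1, by
    have h := fr_mem x.1.2
    rwa [x.2] at h⟩) (by
    constructor
    · intro x y h
      have h1 := fr_inj (congrArg Subtype.val h)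
      exact Subtype.ext (Subtype.ext h1)
    · rintro ⟨f, hf⟩
      obtain ⟨l, h1, h2, h3⟩ := fr_surj hf
      exact ⟨⟨⟨l, h1⟩, h2⟩, Subtype.ext h3⟩)

theorem fin_fiber (n : ℕ) (k : ℕ → ℕ) (N : ℕ) :
    Finite {x : {l : Multiset (ℕ × ℕ) // Admissible n k l} // size x.1 = N} := by
  classical
  have h1 : ∀ x : {x : {l : Multiset (ℕ × ℕ) // Admissible n k l} // size x.1 = N},
      x.1.1 ∈ (N • (box n N).val).powerset.toFinset := by
    intro x
    rw [Multiset.mem_toFinset, Multiset.mem_powerset, Multiset.le_iff_count]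
    intro p
    by_cases hp : p ∈ x.1.1
    · have hb := mem_box x.1.2.1 hp
      rw [x.2] at hb
      rw [Multiset.count_nsmul, Multiset.count_eq_one_of_mem (box n N).nodup hb, mul_one]
      have h2 : Multiset.count p x.1.1 * p.1 ≤ size x.1.1 := by
        unfold size
        rw [Finset.sum_multiset_map_count]
        exact Finset.single_le_sum (f := fun q : ℕ × ℕ => Multiset.count q x.1.1 • q.1)
          (fun _ _ => Nat.zero_le _) (Multiset.mem_toFinset.2 hp)
      have h3 := (x.1.2.1 p hp).1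
      rw [x.2] at h2
      nlinarith
    · rw [Multiset.count_eq_zero.2 hp]
      exact Nat.zero_le _
  exact Finite.of_injective (fun x => (⟨x.1.1, h1 x⟩ :
    {l // l ∈ (N • (box n N).val).powerset.toFinset}))
    (fun x y h => Subtype.ext (Subtype.ext (Subtype.mk_eq_mk.1 h)))

/-! ### the case `n ≥ 1` -/

theorem pos_case {n : ℕ} (hn : 1 ≤ n) (k : ℕ → ℕ) {q : ℝ} (hq0 : 0 < q) (hq1 : q < 1) :
    HasSum (fun l : {l : Multiset (ℕ × ℕ) // Admissible n k l} => q ^ size l.1)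
      (product n k q) := by
  rw [product_eq n k hq0]
  have hmain := Pool.Agent.CMPP.main n hn k hq0 hq1
  rw [← (Equiv.sigmaFiberEquiv
    (fun x : {l : Multiset (ℕ × ℕ) // Admissible n k l} => size x.1)).hasSum_iff]
  have hfib : ∀ N : ℕ, HasSum (fun x : {x : {l : Multiset (ℕ × ℕ) // Admissible n k l} //
      size x.1 = N} => ((fun l : {l : Multiset (ℕ × ℕ) // Admissible n k l} => q ^ size l.1) ∘
        (Equiv.sigmaFiberEquiv
          (fun x : {l : Multiset (ℕ × ℕ) // Admissible n k l} => size x.1))) ⟨N, x⟩)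
      (Pool.Agent.CMPP.LHSf n k q N) := by
    intro N
    have := fin_fiber n k N
    have := Fintype.ofFinite {x : {l : Multiset (ℕ × ℕ) // Admissible n k l} // size x.1 = N}
    have h1 := hasSum_fintype (fun x : {x : {l : Multiset (ℕ × ℕ) // Admissible n k l} //
      size x.1 = N} => ((fun l : {l : Multiset (ℕ × ℕ) // Admissible n k l} => q ^ size l.1) ∘
        (Equiv.sigmaFiberEquiv
          (fun x : {l : Multiset (ℕ × ℕ) // Admissible n k l} => size x.1))) ⟨N, x⟩)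
    have h2 : ∀ x : {x : {l : Multiset (ℕ × ℕ) // Admissible n k l} // size x.1 = N},
        ((fun l : {l : Multiset (ℕ × ℕ) // Admissible n k l} => q ^ size l.1) ∘
        (Equiv.sigmaFiberEquiv
          (fun x : {l : Multiset (ℕ × ℕ) // Admissible n k l} => size x.1))) ⟨N, x⟩ = q ^ N := by
      intro x
      exact congrArg (fun t => q ^ t) x.2
    have h3 : Pool.Agent.CMPP.LHSf n k q N =
        ∑ x : {x : {l : Multiset (ℕ × ℕ) // Admissible n k l} // size x.1 = N},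
          ((fun l : {l : Multiset (ℕ × ℕ) // Admissible n k l} => q ^ size l.1) ∘
        (Equiv.sigmaFiberEquiv
          (fun x : {l : Multiset (ℕ × ℕ) // Admissible n k l} => size x.1))) ⟨N, x⟩ := by
      rw [Finset.sum_congr rfl (fun x _ => h2 x), Finset.sum_const, nsmul_eq_mul,
        Finset.card_univ, ← Nat.card_eq_fintype_card, Nat.card_congr (eqv n k N)]
      rfl
    rw [h3]
    exact h1
  refine HasSum.sigma_of_hasSum hmain hfib ?_
  have hnn : ∀ x, 0 ≤ ((fun l : {l : Multiset (ℕ × ℕ) // Admissible n k l} => q ^ size l.1) ∘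
      (Equiv.sigmaFiberEquiv
        (fun x : {l : Multiset (ℕ × ℕ) // Admissible n k l} => size x.1))) x :=
    fun x => pow_nonneg hq0.le _
  rw [summable_sigma_of_nonneg hnn]
  refine ⟨fun N => (hfib N).summable, ?_⟩
  have h4 : (fun N => ∑' x : {x : {l : Multiset (ℕ × ℕ) // Admissible n k l} //
      size x.1 = N}, ((fun l : {l : Multiset (ℕ × ℕ) // Admissible n k l} => q ^ size l.1) ∘
        (Equiv.sigmaFiberEquiv
          (fun x : {l : Multiset (ℕ × ℕ) // Admissible n k l} => size x.1))) ⟨N, x⟩) =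
      Pool.Agent.CMPP.LHSf n k q := funext fun N => (hfib N).tsum_eq
  rw [h4]
  exact hmain.summable

/-! ### the case `n = 0` -/

open Filter Topology

theorem adm_zero {k : ℕ → ℕ} {l : Multiset (ℕ × ℕ)} : Admissible 0 k l ↔
    (∀ x ∈ l, x.2 = 1 ∧ Odd x.1) ∧ ∀ j : ℕ, l.count (1 + 2 * j, 1) ≤ k 0 := by
  constructor
  · rintro ⟨h1, h2⟩
    refine ⟨fun x hx => ?_, fun j => ?_⟩
    · obtain ⟨g1, g2, g3, g4⟩ := h1 x hx
      have g5 : x.2 = 1 := by omega
      refine ⟨g5, ?_⟩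
      rw [g5] at g4
      obtain ⟨r, hr⟩ := g4
      exact ⟨r - 1, by omega⟩
    · have h3 := h2 (fun _ => 1 + 2 * (j : ℤ)) ⟨fun c hc1 hc2 => ⟨by
        show (-1 : ℤ) ≤ 1 + 2 * (j : ℤ)
        omega, by
        have : c = 1 := by omega
        rw [this]
        exact ⟨1 + j, by push_cast; ring⟩⟩, fun c hc1 hc2 => by omega⟩
      simp only [Nat.mul_zero, Nat.zero_add, Finset.Icc_self, Finset.sum_singleton,
        Finset.range_one] at h3
      unfold freq at h3
      rw [if_neg (by omega), if_neg (by omega)] at h3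
      have h4 : (1 + 2 * (j : ℤ)).toNat = 1 + 2 * j := by omega
      rwa [h4] at h3
  · rintro ⟨h1, h2⟩
    refine ⟨fun x hx => ?_, fun i hi => ?_⟩
    · obtain ⟨g1, r, g2⟩ := h1 x hx
      refine ⟨by omega, by omega, by omega, ⟨r + 1, by omega⟩⟩
    · simp only [Nat.mul_zero, Nat.zero_add, Finset.Icc_self, Finset.sum_singleton,
        Finset.range_one]
      obtain ⟨g1, g2⟩ := hi.1 1 le_rfl le_rfl
      unfold freq
      split_ifs with h3 h4
      · exact le_rfl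
      · exact Nat.zero_le _
      · obtain ⟨r, hr⟩ := g2
        have h5 : (i 1).toNat = 1 + 2 * (r - 1).toNat := by
          push_cast at hr
          omega
        rw [h5]
        exact h2 _

/-- the partition with given multiplicities of the parts `1, 3, ..., 2 J - 1` -/
def mk0 (J : ℕ) (p : Fin J → ℕ) : Multiset (ℕ × ℕ) :=
  ∑ j : Fin J, Multiset.replicate (p j) (1 + 2 * (j : ℕ), 1)

theorem size_mk0 (J : ℕ) (p : Fin J → ℕ) :
    size (mk0 J p) = ∑ j : Fin J, p j * (1 + 2 * (j : ℕ)) := by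
  have h : ∀ l, size l = ((Multiset.sumAddMonoidHom : Multiset ℕ →+ ℕ).comp
      (Multiset.mapAddMonoidHom Prod.fst)) l := fun l => rfl
  rw [h, mk0, map_sum]
  apply Finset.sum_congr rfl
  intro j _
  simp [Multiset.map_replicate]

theorem mem_mk0 {J : ℕ} {p : Fin J → ℕ} {x : ℕ × ℕ} (hx : x ∈ mk0 J p) :
    ∃ j : Fin J, x = (1 + 2 * (j : ℕ), 1) := by
  rw [mk0, Multiset.mem_sum] at hx
  obtain ⟨j, -, h⟩ := hx
  exact ⟨j, Multiset.eq_of_mem_replicate h⟩

theorem count_mk0 {J : ℕ} (p : Fin J → ℕ) (j : Fin J) :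
    (mk0 J p).count (1 + 2 * (j : ℕ), 1) = p j := by
  rw [mk0, Multiset.count_sum']
  rw [Finset.sum_eq_single j]
  · rw [Multiset.count_replicate_self]
  · intro b _ hb
    rw [Multiset.count_replicate, if_neg]
    intro h
    apply hb
    have := congrArg Prod.fst h
    simp only at this
    exact Fin.ext (by omega)
  · intro h
    exact absurd (Finset.mem_univ j) h

theorem adm_mk0 {k : ℕ → ℕ} {J : ℕ} (p : Fin J → ℕ) (hp : ∀ j, p j ≤ k 0) :
    Admissible 0 k (mk0 J p) := by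
  rw [adm_zero]
  refine ⟨fun x hx => ?_, fun j => ?_⟩
  · obtain ⟨j, rfl⟩ := mem_mk0 hx
    exact ⟨rfl, ⟨j, by omega⟩⟩
  · by_cases hj : (1 + 2 * j, 1) ∈ mk0 J p
    · obtain ⟨j', h⟩ := mem_mk0 hj
      rw [h, count_mk0]
      exact hp j'
    · rw [Multiset.count_eq_zero.2 hj]
      exact Nat.zero_le _

theorem mk0_count {k : ℕ → ℕ} {l : Multiset (ℕ × ℕ)} (h : Admissible 0 k l) {J : ℕ}
    (hJ : size l ≤ J) : mk0 J (fun j => l.count (1 + 2 * (j : ℕ), 1)) = l := by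
  ext x
  by_cases hx : ∃ j : Fin J, x = (1 + 2 * (j : ℕ), 1)
  · obtain ⟨j, rfl⟩ := hx
    exact count_mk0 (fun j : Fin J => l.count (1 + 2 * (j : ℕ), 1)) j
  · rw [Multiset.count_eq_zero.2 (fun h => hx (mem_mk0 h)), eq_comm, Multiset.count_eq_zero]
    intro hxl
    apply hx
    obtain ⟨g1, r, g2⟩ := (adm_zero.1 h).1 x hxl
    have g3 := part_le hxl
    refine ⟨⟨r, by omega⟩, ?_⟩
    ext
    · simp only
      omega
    · exact g1

/-- the partial products -/
noncomputable def gg (K : ℕ) (q : ℝ) (J : ℕ) : ℝ :=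
  ∏ j ∈ Finset.range J, ∑ a : Fin (K + 1), (q ^ (1 + 2 * j)) ^ (a : ℕ)

theorem gg_eq {K : ℕ} {q : ℝ} (hq0 : 0 < q) (hq1 : q < 1) (J : ℕ) :
    gg K q J = (∏ j ∈ Finset.range J, (1 - q ^ ((K + 1) + 2 * (K + 1) * j))) /
      ∏ j ∈ Finset.range J, (1 - q ^ (1 + 2 * j)) := by
  unfold gg
  rw [← Finset.prod_div_distrib]
  apply Finset.prod_congr rfl
  intro j _
  have h1 : q ^ (1 + 2 * j) < 1 := pow_lt_one₀ hq0.le hq1 (by omega)
  rw [Fin.sum_univ_eq_sum_range (fun a => (q ^ (1 + 2 * j)) ^ a) (K + 1),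
    geom_sum_eq h1.ne, ← neg_div_neg_eq, neg_sub, neg_sub, ← pow_mul]
  congr 3
  ring

theorem gg_tendsto {K : ℕ} {q : ℝ} (hq0 : 0 < q) (hq1 : q < 1) : Tendsto (gg K q) atTop
    (𝓝 (poch (q ^ (K + 1)) (q ^ (2 * (K + 1))) / poch q (q ^ 2))) := by
  have e1 : poch (q ^ (K + 1)) (q ^ (2 * (K + 1))) = CMPP_M.E q (K + 1) (2 * (K + 1)) :=
    poch_pow q _ _
  have e2 : poch q (q ^ 2) = CMPP_M.E q 1 2 := by
    have := poch_pow q 1 2
    rwa [pow_one] at this
  rw [e1, e2]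
  have h1 := (CMPP_M.E_hasProd hq0 hq1 (K + 1) (N := 2 * (K + 1)) (by omega)).tendsto_prod_nat
  have h2 := (CMPP_M.E_hasProd hq0 hq1 1 (N := 2) (by omega)).tendsto_prod_nat
  have h3 := h1.div h2 (CMPP_M.E_pos hq0 hq1 le_rfl (by omega)).ne'
  refine h3.congr fun J => ?_
  rw [gg_eq hq0 hq1]
  rfl

theorem gg_mono {K : ℕ} {q : ℝ} (hq0 : 0 < q) : Monotone (gg K q) := by
  apply monotone_nat_of_le_succ
  intro J
  unfold gg
  rw [Finset.prod_range_succ]
  apply le_mul_of_one_le_right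
  · apply Finset.prod_nonneg
    intro j _
    positivity
  · calc (1 : ℝ) = (q ^ (1 + 2 * J)) ^ (((0 : Fin (K + 1)) : ℕ)) := by simp
      _ ≤ ∑ a : Fin (K + 1), (q ^ (1 + 2 * J)) ^ (a : ℕ) :=
        Finset.single_le_sum (f := fun a : Fin (K + 1) => (q ^ (1 + 2 * J)) ^ (a : ℕ))
          (fun a _ => by positivity) (Finset.mem_univ _)

/-- the admissible partition with given multiplicities -/
def LL (k : ℕ → ℕ) (J : ℕ) (p : Fin J → Fin (k 0 + 1)) : {l : Multiset (ℕ × ℕ) // Admissible 0 k l} :=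
  ⟨mk0 J (fun j => p j), adm_mk0 _ (fun j => Nat.lt_succ_iff.1 (p j).2)⟩

theorem LL_inj (k : ℕ → ℕ) (J : ℕ) : Function.Injective (LL k J) := by
  intro p p' h
  funext j
  have h1 : mk0 J (fun j => (p j : ℕ)) = mk0 J (fun j => (p' j : ℕ)) := congrArg Subtype.val h
  have h2 := count_mk0 (fun j : Fin J => (p j : ℕ)) j
  rw [h1, count_mk0 (fun j : Fin J => (p' j : ℕ)) j] at h2
  exact Fin.ext h2.symm

theorem sum_LL (k : ℕ → ℕ) (q : ℝ) (J : ℕ) :
    ∑ p : Fin J → Fin (k 0 + 1), q ^ size (LL k J p).1 = gg (k 0) q J := by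
  unfold gg
  rw [← Fin.prod_univ_eq_prod_range (fun j => ∑ a : Fin (k 0 + 1), (q ^ (1 + 2 * j)) ^ (a : ℕ)) J,
    Finset.prod_univ_sum, Fintype.piFinset_univ]
  apply Finset.sum_congr rfl
  intro p _
  have h1 : size (LL k J p).1 = ∑ j : Fin J, (p j : ℕ) * (1 + 2 * (j : ℕ)) := size_mk0 J _
  rw [h1, ← Finset.prod_pow_eq_pow_sum]
  apply Finset.prod_congr rfl
  intro j _
  rw [← pow_mul]
  congr 1
  ring

theorem zero_case (k : ℕ → ℕ) {q : ℝ} (hq0 : 0 < q) (hq1 : q < 1) :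
    HasSum (fun l : {l : Multiset (ℕ × ℕ) // Admissible 0 k l} => q ^ size l.1)
      (product 0 k q) := by
  classical
  have e1 : product 0 k q = poch (q ^ (k 0 + 1)) (q ^ (2 * (k 0 + 1))) / poch q (q ^ 2) := by
    unfold product bigM
    simp
  rw [e1]
  have him : ∀ J : ℕ, ∑ l ∈ Finset.univ.image (LL k J), q ^ size l.1 = gg (k 0) q J := by
    intro J
    rw [Finset.sum_image (fun a _ b _ h => LL_inj k J h)]
    exact sum_LL k q J
  apply hasSum_of_isLUB_of_nonneg _ (fun l => pow_nonneg hq0.le _)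
  constructor
  · rintro _ ⟨s, rfl⟩
    simp only
    set J := ∑ l ∈ s, size l.1 with hJ
    have hsub : s ⊆ Finset.univ.image (LL k J) := by
      intro l hl
      have h1 : size l.1 ≤ J := Finset.single_le_sum
        (f := fun l : {l : Multiset (ℕ × ℕ) // Admissible 0 k l} => size l.1)
        (fun _ _ => Nat.zero_le _) hl
      rw [Finset.mem_image]
      refine ⟨fun j => ⟨l.1.count (1 + 2 * (j : ℕ), 1),
        Nat.lt_succ_of_le ((adm_zero.1 l.2).2 j)⟩, Finset.mem_univ _, ?_⟩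
      exact Subtype.ext (mk0_count l.2 h1)
    calc ∑ l ∈ s, q ^ size l.1 ≤ ∑ l ∈ Finset.univ.image (LL k J), q ^ size l.1 :=
          Finset.sum_le_sum_of_subset_of_nonneg hsub (fun l _ _ => pow_nonneg hq0.le _)
      _ = gg (k 0) q J := him J
      _ ≤ _ := (gg_mono hq0).ge_of_tendsto (gg_tendsto hq0 hq1) J
  · intro B hB
    apply le_of_tendsto' (gg_tendsto (K := k 0) hq0 hq1)
    intro J
    rw [← him J]
    exact hB ⟨Finset.univ.image (LL k J), rfl⟩

/-- the product formula -/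
theorem result : ∀ (n : ℕ) (k : ℕ → ℕ) (q : ℝ), 0 < q → q < 1 →
    HasSum (fun l : {l : Multiset (ℕ × ℕ) // Admissible n k l} => q ^ size l.1)
      (product n k q) := by
  intro n k q hq0 hq1
  rcases Nat.eq_zero_or_pos n with rfl | hn
  · exact zero_case k hq0 hq1
  · exact pos_case hn k hq0 hq1

end Pool.Agent.Results.MP_9edfd9_co.ProductFormula
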